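import Pool.Agent.W812.RB.Stm

/-!
One step of the recursion in `ZMod M`.
-/

namespace Pool.Agent.W351.RB

open Finset
open Pool.Agent.W812.RB
open Pool.Agent.H309R2.AP3 (opK opZ opY kz opKZ opKZ_mono)

lemma twoInj_zmod {M : ℕ} (hM : Odd M) : TwoInj (ZMod M) := by
  intro x z h
  have h2 : IsUnit (2 : ZMod M) := by
    have : ((2 : ℕ) : ZMod M) = 2 := by norm_num
    rw [← this, ZMod.isUnit_iff_coprime]
    exact (Nat.coprime_two_left).2 hM
  have : (2 : ZMod M) * x = 2 * z := by linear_combination h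
  exact h2.mul_left_cancel this

lemma pot_map {G G' : Type*} [AddCommGroup G] [AddCommGroup G'] (φ : G ≃+ G') {S : Finset G}
    {B : ℕ} (h : Pot S B) : Pot (S.map φ.toEquiv.toEmbedding) B := by
  obtain ⟨g, hg1, hg2⟩ := h
  have hm : ∀ x, x ∈ S.map φ.toEquiv.toEmbedding → φ.symm x ∈ S := by
    intro x hx
    rw [mem_map] at hx
    obtain ⟨a, ha, rfl⟩ := hx
    simpa using ha
  refine ⟨fun x => g (φ.symm x), fun x hx => hg1 _ (hm x hx), ?_⟩
  intro x hx z hz y hy hxz hne
  refine hg2 _ (hm x hx) _ (hm z hz) _ (hm y hy) ?_ ?_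
  · rw [← map_add, hxz, map_add]
  · intro h
    exact hne (φ.symm.injective h)

lemma fam_map {G G' : Type*} [AddCommGroup G] [AddCommGroup G'] (φ : G ≃+ G') {B : ℕ}
    (F : Fam G B) : ∃ F' : Fam G' B, (∀ i, (F'.K i).card = (F.K i).card) ∧
      ∀ j, (F'.Z j).card = (F.Z j).card := by
  have hm : ∀ (S : Finset G) x, x ∈ S.map φ.toEquiv.toEmbedding → φ.symm x ∈ S := by
    intro S x hx
    rw [mem_map] at hx
    obtain ⟨a, ha, rfl⟩ := hx
    simpa using ha
  refine ⟨⟨fun i => (F.K i).map φ.toEquiv.toEmbedding, fun j => (F.Z j).map φ.toEquiv.toEmbedding,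
    fun i => pot_map φ (F.hK i), fun j => pot_map φ (F.hZ j), ?_⟩, ?_, ?_⟩
  · intro i₁ i₂ j hij x hx z hz hxz
    refine F.h i₁ i₂ j hij _ (hm _ x hx) _ (hm _ z hz) ?_
    rw [← map_add]
    exact hm _ _ hxz
  · intro i
    exact card_map _
  · intro j
    exact card_map _

theorem hasFamStep (h1 : StepPotStm) (h2 : StepRelStm) (h3 : StepCardStm) : HasFamStepStm := by
  intro H t nu n M B w p q e r L A hM hp hcop hH hnu hP hr hL hA hF
  obtain ⟨F, hFK, hFZ⟩ := hF
  haveI : NeZero M := ⟨by rintro rfl; simp at hM⟩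
  haveI : NeZero p := ⟨by rintro rfl; simp at hp⟩
  have hpos : 1 ≤ H * q + e := by
    rcases Nat.eq_zero_or_pos (H * q + e) with h | h
    · rw [h] at hP
      omega
    · exact h
  let π : Par :=
    { P := H * q + e - 1
      q := q
      H := H
      e := e
      r := r
      L := L
      t := t
      nu := nu
      hP := by omega
      hr := hr
      hL := hL
      hH := hH
      hnu := hnu }
  have hpP : p = 2 * π.P + 1 := by
    show p = 2 * (H * q + e - 1) + 1
    omega
  have hT : TwoInj (ZMod M) := twoInj_zmod hM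
  obtain ⟨hPK, hPZ⟩ := h1 (ZMod M) p π B A F hT hpP hA
  have hR := h2 (ZMod M) p π B F hpP
  obtain ⟨hC1, hC2, hC3⟩ := h3 (ZMod M) p π B F hT hpP
  let F1 : Fam (ZMod p × ZMod M) (A * p ^ 2 + B) :=
    { K := nK (p := p) π F
      Z := nZ (p := p) π F
      hK := hPK
      hZ := hPZ
      h := hR }
  obtain ⟨F', hK', hZ'⟩ := fam_map (ZMod.chineseRemainder hcop).symm.toAddEquiv F1
  have key := opKZ_mono (H := H) (t := t) (nu := nu) (a := w) (b := 1)
    (w1 := kz H t nu n)
    (w2 := (fun i => (F.K i).card, fun j => (F.Z j).card))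
    (fun i => by rw [one_mul]; exact hFK i) (fun j => by rw [one_mul]; exact hFZ j)
  obtain ⟨key1, key2⟩ := key
  refine ⟨F', fun i => ?_, fun j => ?_⟩
  · rw [hK' i]
    have k1 := key1 i
    rw [one_mul] at k1
    calc r * w * (kz H t nu (n + 1)).1 i = r * (w * (opKZ H t nu (kz H t nu n)).1 i) := by
          rw [kz]; ring
      _ ≤ r * opK H t nu (fun i => (F.K i).card) (fun j => (F.Z j).card) i :=
          Nat.mul_le_mul_left _ k1
      _ ≤ _ := hC1 i
  · rw [hZ' j]
    have k2 := key2 j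
    rw [one_mul] at k2
    have hgoal : r * w * (kz H t nu (n + 1)).2 j = r * (w * (opKZ H t nu (kz H t nu n)).2 j) := by
      rw [kz]; ring
    rw [hgoal]
    refine le_trans (Nat.mul_le_mul_left _ k2) ?_
    simp only [opKZ]
    split_ifs with hj
    · exact hC2 j hj
    · exact hC3 j hj

end Pool.Agent.W351.RB
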